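import Mathlib

set_option autoImplicit false

namespace Pool.Agent.Results.MP_391eb1_al.SharpConstant

universe u v

/-- The set `LCM(G)`: all `x` such that `o(x^n y)` divides `lcm(o(x^n), o(y))` for all
positive integers `n` and all `y` in `G`. -/
def lcmSet (G : Type u) [Group G] : Set G :=
  {x | ∀ n : ℕ, 0 < n → ∀ y : G, orderOf (x ^ n * y) ∣ Nat.lcm (orderOf (x ^ n)) (orderOf y)}

/-- `G` is an LCM-group if `LCM(G) = G`. -/
def IsLCMGroup (G : Type u) [Group G] : Prop := lcmSet G = Set.univ

/-- The ratio `|LCM(G)| / |G|`. -/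
noncomputable def lcmRatio (G : Type u) [Group G] : ℝ :=
  (Nat.card (lcmSet G) : ℝ) / (Nat.card G : ℝ)

/-- `lcm*(G)`: the least value of `lcm(H/K)` over all sections `H/K` of `G`. -/
noncomputable def lcmStar (G : Type u) [Group G] : ℝ :=
  sInf {r : ℝ | ∃ (H : Subgroup G) (K : Subgroup H) (_ : K.Normal), r = lcmRatio (H ⧸ K)}

/-- The set of ratios of sections. -/
def ratioSet (G : Type u) [Group G] : Set ℝ :=
  {r : ℝ | ∃ (H : Subgroup G) (K : Subgroup H) (_ : K.Normal), r = lcmRatio (H ⧸ K)}

lemma ratioSet_nonempty (G : Type u) [Group G] : (ratioSet G).Nonempty :=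
  ⟨_, ⊤, ⊥, inferInstance, rfl⟩

lemma lcmRatio_nonneg (G : Type u) [Group G] : 0 ≤ lcmRatio G := by
  unfold lcmRatio; positivity

lemma ratioSet_bddBelow (G : Type u) [Group G] : BddBelow (ratioSet G) := by
  refine ⟨0, ?_⟩
  rintro r ⟨H, K, hK, rfl⟩
  exact lcmRatio_nonneg _

lemma ratioSet_finite (G : Type u) [Group G] [Finite G] : (ratioSet G).Finite := by
  classical
  let S : Set (Σ H : Subgroup G, {K : Subgroup H // K.Normal}) := Set.univ
  have : (ratioSet G) ⊆ Set.range (fun x : (Σ H : Subgroup G, {K : Subgroup H // K.Normal}) =>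
      have := x.2.2; lcmRatio (x.1 ⧸ x.2.1)) := by
    rintro r ⟨H, K, hK, rfl⟩
    exact ⟨⟨H, K, hK⟩, rfl⟩
  exact (Set.finite_range _).subset this

/-- For finite `G` the infimum in the definition of `lcmStar` is attained: it is a minimum. -/
lemma lcmStar_isLeast (G : Type u) [Group G] [Finite G] : IsLeast (ratioSet G) (lcmStar G) := by
  have h := (ratioSet_nonempty G).csInf_mem (ratioSet_finite G)
  exact ⟨h, fun r hr => csInf_le (ratioSet_bddBelow G) hr⟩

lemma mem_lcmSet_of_equiv {G : Type u} {H : Type v} [Group G] [Group H] (e : G ≃* H) {x : G}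
    (hx : x ∈ lcmSet G) : e x ∈ lcmSet H := by
  intro n hn y
  have h := hx n hn (e.symm y)
  have h1 : orderOf (e x ^ n * y) = orderOf (x ^ n * e.symm y) := by
    rw [← MulEquiv.orderOf_eq e (x ^ n * e.symm y)]
    simp
  have h2 : orderOf (e x ^ n) = orderOf (x ^ n) := by
    rw [← MulEquiv.orderOf_eq e (x ^ n)]; simp
  have h3 : orderOf y = orderOf (e.symm y) := by
    rw [MulEquiv.orderOf_eq e.symm y]
  rw [h1, h2, h3]; exact h

lemma lcmRatio_congr {G : Type u} {H : Type v} [Group G] [Group H] (e : G ≃* H) :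
    lcmRatio G = lcmRatio H := by
  unfold lcmRatio
  have h1 : Nat.card G = Nat.card H := Nat.card_congr e.toEquiv
  have h2 : Nat.card (lcmSet G) = Nat.card (lcmSet H) := by
    refine Nat.card_congr ?_
    refine
      { toFun := fun x => ⟨e x.1, mem_lcmSet_of_equiv e x.2⟩
        invFun := fun x => ⟨e.symm x.1, mem_lcmSet_of_equiv e.symm x.2⟩
        left_inv := fun x => by simp
        right_inv := fun x => by simp }
  rw [h1, h2]

lemma isLCMGroup_congr {G : Type u} {H : Type v} [Group G] [Group H] (e : G ≃* H)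
    (h : IsLCMGroup G) : IsLCMGroup H := by
  unfold IsLCMGroup at *
  ext x
  simp only [Set.mem_univ, iff_true]
  have : e.symm x ∈ lcmSet G := by rw [h]; trivial
  simpa using mem_lcmSet_of_equiv e this

/-- In an LCM-group, elements killed by `m` are closed under multiplication. -/
lemma IsLCMGroup.mul_pow {G : Type u} [Group G] (h : IsLCMGroup G) {x y : G} {m : ℕ}
    (hx : x ^ m = 1) (hy : y ^ m = 1) : (x * y) ^ m = 1 := by
  have hx' : x ∈ lcmSet G := by rw [h]; trivial
  have h1 := hx' 1 one_pos y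
  rw [pow_one] at h1
  rw [← orderOf_dvd_iff_pow_eq_one] at *
  exact h1.trans (Nat.lcm_dvd hx hy)

/-- `S` is (isomorphic to) a section of `G`. -/
def IsSection (S : Type v) (G : Type u) [Group S] [Group G] : Prop :=
  ∃ (H : Subgroup G) (f : H →* S), Function.Surjective f

lemma IsSection.lcmStar_le {S : Type v} {G : Type u} [Group S] [Group G]
    (h : IsSection S G) : lcmStar G ≤ lcmRatio S := by
  obtain ⟨H, f, hf⟩ := h
  have e : H ⧸ f.ker ≃* S := QuotientGroup.quotientKerEquivOfSurjective f hf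
  rw [← lcmRatio_congr e]
  exact csInf_le (ratioSet_bddBelow G) ⟨H, f.ker, inferInstance, rfl⟩

lemma IsSection.trans {S : Type v} {T : Type v} {G : Type u} [Group S] [Group T] [Group G]
    (h : IsSection S T) (h' : IsSection T G) : IsSection S G := by
  obtain ⟨H, f, hf⟩ := h
  obtain ⟨H', g, hg⟩ := h'
  let L : Subgroup H' := H.comap g
  let e : L ≃* L.map H'.subtype := L.equivMapOfInjective H'.subtype H'.subtype_injective
  let g' : L →* H := g.subgroupComap H
  refine ⟨L.map H'.subtype, (f.comp g').comp e.symm.toMonoidHom, ?_⟩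
  have hg' : Function.Surjective g' := by
    rintro ⟨t, ht⟩
    obtain ⟨x, hx⟩ := hg t
    refine ⟨⟨x, ?_⟩, ?_⟩
    · change g x ∈ H
      rw [hx]; exact ht
    · exact Subtype.ext hx
  simp only [MonoidHom.coe_comp]
  exact (hf.comp hg').comp e.symm.surjective

lemma isSection_refl (G : Type u) [Group G] : IsSection G G :=
  ⟨⊤, (⊤ : Subgroup G).subtype, fun x => ⟨⟨x, trivial⟩, rfl⟩⟩

/-- The constant `1 - 2(p-1)/p^2`. -/
noncomputable def cst (p : ℕ) : ℝ := 1 - 2 * ((p : ℝ) - 1) / (p : ℝ) ^ 2

/-- The main computation: a finite `p`-group which is not an LCM-group, all of whose proper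
subgroups and proper quotients are LCM-groups. -/
lemma minimal_bound {p : ℕ} [hp : Fact p.Prime] (G : Type u) [Group G] [Finite G]
    (hG : IsPGroup p G) (hn : ¬ IsLCMGroup G)
    (hsub : ∀ H : Subgroup G, H ≠ ⊤ → IsLCMGroup H)
    (hquo : ∀ N : Subgroup G, ∀ _ : N.Normal, N ≠ ⊥ → IsLCMGroup (G ⧸ N)) :
    lcmRatio G ≤ cst p := by
  classical
  have hppos : 0 < p := hp.out.pos
  have : Nontrivial G := by
    by_contra hnt
    rw [not_nontrivial_iff_subsingleton] at hnt
    apply hn
    unfold IsLCMGroup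
    ext x
    simp only [Set.mem_univ, iff_true]
    intro n hn y
    have : x ^ n * y = 1 := Subsingleton.elim _ _
    rw [this, orderOf_one]
    exact one_dvd _
  -- Step 1: elements of order dividing `p` are not closed under multiplication.
  have step1 : ∃ x y : G, x ^ p = 1 ∧ y ^ p = 1 ∧ (x * y) ^ p ≠ 1 := by
    by_contra hcon
    push Not at hcon
    -- the subgroup of elements killed by `p`
    let T : Subgroup G :=
      { carrier := {x | x ^ p = 1}
        one_mem' := one_pow p
        mul_mem' := fun {a b} ha hb => hcon a b ha hb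
        inv_mem' := fun {a} ha => by
          change a⁻¹ ^ p = 1
          rw [inv_pow, show a ^ p = 1 from ha, inv_one] }
    have hT : ∀ x, x ∈ T ↔ x ^ p = 1 := fun x => Iff.rfl
    have hTn : T.Normal := by
      refine ⟨fun n hn g => ?_⟩
      rw [hT, conj_pow, (hT n).1 hn]
      simp
    have hTb : T ≠ ⊥ := by
      obtain ⟨g, hg⟩ := exists_prime_orderOf_dvd_card' (G := G) p (by
        obtain ⟨n, hn⟩ := IsPGroup.iff_card.1 hG
        have h1 : 1 < Nat.card G := Finite.one_lt_card
        rw [hn] at h1 ⊢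
        have : n ≠ 0 := by
          rintro rfl
          simp at h1
        exact dvd_pow_self p this)
      intro hbot
      have : g ∈ T := by
        rw [hT, ← hg]
        exact pow_orderOf_eq_one g
      rw [hbot, Subgroup.mem_bot] at this
      rw [this, orderOf_one] at hg
      exact hp.out.one_lt.ne hg
    have hq := hquo T hTn hTb
    -- all powers of `p`
    have key : ∀ k : ℕ, ∀ x y : G, x ^ (p ^ k) = 1 → y ^ (p ^ k) = 1 → (x * y) ^ (p ^ k) = 1 := by
      intro k
      rcases k with _ | k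
      · intro x y hx hy
        simp only [pow_zero, pow_one] at hx hy ⊢
        rw [hx, hy, one_mul]
      · intro x y hx hy
        have h1 : (x : G ⧸ T) ^ (p ^ k) = 1 := by
          rw [← QuotientGroup.mk_pow, QuotientGroup.eq_one_iff, hT, ← pow_mul, ← pow_succ]
          exact hx
        have h2 : (y : G ⧸ T) ^ (p ^ k) = 1 := by
          rw [← QuotientGroup.mk_pow, QuotientGroup.eq_one_iff, hT, ← pow_mul, ← pow_succ]
          exact hy
        have h3 := hq.mul_pow h1 h2
        rw [← QuotientGroup.mk_mul, ← QuotientGroup.mk_pow, QuotientGroup.eq_one_iff, hT,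
          ← pow_mul, ← pow_succ] at h3
        exact h3
    apply hn
    unfold IsLCMGroup
    ext x
    simp only [Set.mem_univ, iff_true]
    intro n hn y
    obtain ⟨a, ha⟩ := (IsPGroup.iff_orderOf.1 hG) (x ^ n)
    obtain ⟨b, hb⟩ := (IsPGroup.iff_orderOf.1 hG) y
    have hm : orderOf (x ^ n * y) ∣ p ^ (max a b) := by
      apply orderOf_dvd_of_pow_eq_one
      apply key
      · rw [← orderOf_dvd_iff_pow_eq_one, ha]
        exact pow_dvd_pow p (le_max_left a b)
      · rw [← orderOf_dvd_iff_pow_eq_one, hb]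
        exact pow_dvd_pow p (le_max_right a b)
    rw [ha, hb]
    refine hm.trans ?_
    rcases le_total a b with hab | hab
    · rw [max_eq_right hab]; exact Nat.dvd_lcm_right _ _
    · rw [max_eq_left hab]; exact Nat.dvd_lcm_left _ _
  obtain ⟨x, y, hx, hy, hxy⟩ := step1
  -- Step 2: `x` and `y` generate `G`.
  have hgen : ∀ H : Subgroup G, x ∈ H → y ∈ H → H = ⊤ := by
    intro H hxH hyH
    by_contra hH
    have h := hsub H hH
    have hx' : (⟨x, hxH⟩ : H) ^ p = 1 := by
      apply Subtype.ext; simpa using hx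
    have hy' : (⟨y, hyH⟩ : H) ^ p = 1 := by
      apply Subtype.ext; simpa using hy
    have := h.mul_pow hx' hy'
    apply hxy
    have h2 := congrArg Subtype.val this
    simpa using h2
  have hnil : Group.IsNilpotent G := hG.isNilpotent
  -- Step 3: the normal closure of an element of order `p` of a generating pair.
  have step3 : ∀ x y : G, x ^ p = 1 → y ^ p = 1 → (∀ H : Subgroup G, x ∈ H → y ∈ H → H = ⊤) →
      (x * y) ^ p ≠ 1 →
      ∃ A : Subgroup G, A.Normal ∧ x ∈ A ∧ (∀ a ∈ A, a ^ p = 1) ∧ A.index = p := by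
    intro x y hx hy hgen hxy
    let A : Subgroup G := Subgroup.normalClosure {x}
    have hxA : x ∈ A := Subgroup.subset_normalClosure (Set.mem_singleton x)
    have hAn : A.Normal := Subgroup.normalClosure_normal
    have hAtop : A ≠ ⊤ := by
      intro hA
      -- then `x` generates `G`
      have hz : Subgroup.zpowers x = ⊤ := by
        by_contra hz
        obtain ⟨M, hM, hle⟩ := (eq_top_or_exists_le_coatom (Subgroup.zpowers x)).resolve_left hz
        have hMn : M.Normal := Subgroup.NormalizerCondition.normal_of_coatom M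
          Group.normalizerCondition_of_isNilpotent hM
        have : A ≤ M := Subgroup.normalClosure_le_normal (by
          simpa using hle (Subgroup.mem_zpowers x))
        rw [hA] at this
        exact hM.1 (top_le_iff.1 this)
      have h1 : x * y ∈ Subgroup.zpowers x := by rw [hz]; trivial
      obtain ⟨k, hk⟩ := Subgroup.mem_zpowers_iff.1 h1
      apply hxy
      rw [← hk, ← zpow_natCast, ← zpow_mul, mul_comm, zpow_mul, zpow_natCast, hx, one_zpow]
    have hAlcm := hsub A hAtop
    refine ⟨A, hAn, hxA, ?_, ?_⟩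
    · -- exponent `p`
      let T : Subgroup A :=
        { carrier := {x | x ^ p = 1}
          one_mem' := one_pow p
          mul_mem' := fun {a b} ha hb => hAlcm.mul_pow ha hb
          inv_mem' := fun {a} ha => by
            change a⁻¹ ^ p = 1
            rw [inv_pow, show a ^ p = 1 from ha, inv_one] }
      have hTn : (T.map A.subtype).Normal := by
        refine ⟨?_⟩
        rintro n ⟨⟨t, htA⟩, ht, rfl⟩ g
        refine ⟨⟨g * t * g⁻¹, hAn.conj_mem t htA g⟩, ?_, rfl⟩
        have ht' : t ^ p = 1 := by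
          have := congrArg Subtype.val (show (⟨t, htA⟩ : A) ^ p = 1 from ht)
          simpa using this
        apply Subtype.ext
        simp [conj_pow, ht']
      have hle : A ≤ T.map A.subtype := Subgroup.normalClosure_le_normal (by
        simp only [Set.singleton_subset_iff, SetLike.mem_coe]
        refine ⟨⟨x, hxA⟩, ?_, rfl⟩
        apply Subtype.ext
        simpa using hx)
      intro a ha
      obtain ⟨⟨t, htA⟩, ht, rfl⟩ := hle ha
      have := congrArg Subtype.val (show (⟨t, htA⟩ : A) ^ p = 1 from ht)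
      simpa using this
    · -- index `p`
      have hsup : A ⊔ Subgroup.zpowers y = ⊤ := by
        apply hgen
        · exact Subgroup.mem_sup_left hxA
        · exact Subgroup.mem_sup_right (Subgroup.mem_zpowers y)
      have h1 : A.index ∣ p := by
        rw [← Subgroup.relIndex_top_right, ← hsup, sup_comm, Subgroup.relIndex_sup_right]
        refine (Subgroup.relIndex_dvd_card _ _).trans ?_
        rw [Nat.card_zpowers]
        exact orderOf_dvd_of_pow_eq_one hy
      rcases (Nat.dvd_prime hp.out).1 h1 with h | h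
      · exact absurd (Subgroup.index_eq_one.1 h) hAtop
      · exact h
  obtain ⟨A, hAn, hxA, hAp, hAi⟩ := step3 x y hx hy hgen hxy
  obtain ⟨B, hBn, hyB, hBp, hBi⟩ := step3 y x hy hx (fun H h1 h2 => hgen H h2 h1) (by
    intro h
    apply hxy
    have : x * y = y⁻¹ * (y * x) * y := by group
    rw [this]
    have h2 : (y⁻¹ * (y * x) * (y⁻¹)⁻¹) ^ p = y⁻¹ * (y * x) ^ p * (y⁻¹)⁻¹ := conj_pow
    rw [inv_inv] at h2
    rw [h2, h]
    simp)
  have hyA : y ∉ A := by
    intro hyA
    have := hgen A hxA hyA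
    rw [this, Subgroup.index_top] at hAi
    exact hp.out.one_lt.ne hAi
  have hxB : x ∉ B := by
    intro hxB
    have := hgen B hxB hyB
    rw [this, Subgroup.index_top] at hBi
    exact hp.out.one_lt.ne hBi
  have hAB : A ⊔ B = ⊤ := hgen _ (Subgroup.mem_sup_left hxA) (Subgroup.mem_sup_right hyB)
  have hABi : (A ⊓ B).index = p * p := by
    have h1 : (A ⊓ B).relIndex A * A.index = (A ⊓ B).index :=
      Subgroup.relIndex_mul_index inf_le_left
    have h2 : (A ⊓ B).relIndex A = B.relIndex A := by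
      rw [inf_comm]; exact Subgroup.inf_relIndex_right _ _
    have h3 : B.relIndex A = p := by
      rw [← Subgroup.relIndex_sup_right, hAB, Subgroup.relIndex_top_right, hBi]
    rw [← h1, h2, h3, hAi]
  -- Step 8: elements of exactly one of `A`, `B` are not in `LCM(G)`.
  have step8 : ∀ A B : Subgroup G, B.Normal → (∀ a ∈ A, a ^ p = 1) → (∀ b ∈ B, b ^ p = 1) →
      B.index = p → ∀ a ∈ A, a ∉ B → a ∉ lcmSet G := by
    intro A B hBn hAp hBp hBi a haA haB hal
    -- `x * y = a ^ n * b`
    have := hBn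
    have hcard : Nat.card (G ⧸ B) = p := hBi
    have hne : (a : G ⧸ B) ≠ 1 := by
      rw [Ne, QuotientGroup.eq_one_iff]; exact haB
    have hmem : ((x * y : G) : G ⧸ B) ∈ Subgroup.zpowers (a : G ⧸ B) :=
      mem_zpowers_of_prime_card hcard hne
    obtain ⟨k, hk⟩ := (isOfFinOrder_of_finite (a : G ⧸ B)).mem_powers_iff_mem_zpowers.2 hmem
    have hk' : (a : G ⧸ B) ^ (k + p) = ((x * y : G) : G ⧸ B) := by
      rw [pow_add, ← hk]
      have : (a : G ⧸ B) ^ p = 1 := by
        rw [← QuotientGroup.mk_pow, hAp a haA]; rfl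
      rw [this, mul_one]
    have hb : (a ^ (k + p))⁻¹ * (x * y) ∈ B := by
      rw [← QuotientGroup.eq, ← hk', QuotientGroup.mk_pow]
    have h1 := hal (k + p) (by omega) ((a ^ (k + p))⁻¹ * (x * y))
    rw [mul_inv_cancel_left] at h1
    apply hxy
    rw [← orderOf_dvd_iff_pow_eq_one]
    refine h1.trans (Nat.lcm_dvd ?_ ?_)
    · rw [orderOf_dvd_iff_pow_eq_one, ← pow_mul, mul_comm, pow_mul, hAp a haA, one_pow]
    · rw [orderOf_dvd_iff_pow_eq_one]
      exact hBp _ hb
  -- Step 9: counting
  have hdisj : lcmSet G ⊆ (((A : Set G) \ B) ∪ ((B : Set G) \ A))ᶜ := by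
    intro g hg hmem
    rcases hmem with ⟨h1, h2⟩ | ⟨h1, h2⟩
    · exact step8 A B hBn hAp hBp hBi g h1 h2 hg
    · exact step8 B A hAn hBp hAp hAi g h1 h2 hg
  have hcA : p * Nat.card A = Nat.card G := by rw [← hAi]; exact Subgroup.index_mul_card A
  have hcB : p * Nat.card B = Nat.card G := by rw [← hBi]; exact Subgroup.index_mul_card B
  have hcAB : p * p * Nat.card (A ⊓ B : Subgroup G) = Nat.card G := by
    rw [← hABi]; exact Subgroup.index_mul_card (A ⊓ B)
  have e1 : ((A : Set G) \ B).ncard + Nat.card (A ⊓ B : Subgroup G) = Nat.card A := by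
    have := Set.ncard_inter_add_ncard_sdiff_eq_ncard (A : Set G) (B : Set G)
    rw [add_comm] at this
    exact this
  have e2 : ((B : Set G) \ A).ncard + Nat.card (A ⊓ B : Subgroup G) = Nat.card B := by
    have := Set.ncard_inter_add_ncard_sdiff_eq_ncard (B : Set G) (A : Set G)
    rw [add_comm, Set.inter_comm] at this
    exact this
  have e3 : (((A : Set G) \ B) ∪ ((B : Set G) \ A)).ncard
      = ((A : Set G) \ B).ncard + ((B : Set G) \ A).ncard := by
    refine Set.ncard_union_eq ?_ (Set.toFinite _) (Set.toFinite _)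
    rw [Set.disjoint_left]
    rintro g ⟨h1, h2⟩ ⟨h3, h4⟩
    exact h2 h3
  have e4 : (((A : Set G) \ B) ∪ ((B : Set G) \ A)).ncard
      + (((A : Set G) \ B) ∪ ((B : Set G) \ A))ᶜ.ncard = Nat.card G :=
    Set.ncard_add_ncard_compl _
  have e5 : (lcmSet G).ncard ≤ (((A : Set G) \ B) ∪ ((B : Set G) \ A))ᶜ.ncard :=
    Set.ncard_le_ncard hdisj
  have e6 : Nat.card (lcmSet G) = (lcmSet G).ncard := Nat.card_coe_set_eq _
  have hGpos : 0 < Nat.card G := Nat.card_pos
  unfold lcmRatio cst
  rw [e6]
  have hpR : (0 : ℝ) < p := by exact_mod_cast hppos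
  have hGR : (0 : ℝ) < Nat.card G := by exact_mod_cast hGpos
  have hcAR : (p : ℝ) * Nat.card A = Nat.card G := by exact_mod_cast hcA
  have hcBR : (p : ℝ) * Nat.card B = Nat.card G := by exact_mod_cast hcB
  have hcABR : (p : ℝ) * p * Nat.card (A ⊓ B : Subgroup G) = Nat.card G := by exact_mod_cast hcAB
  have e1R : (((A : Set G) \ B).ncard : ℝ) + Nat.card (A ⊓ B : Subgroup G) = Nat.card A := by
    exact_mod_cast e1
  have e2R : (((B : Set G) \ A).ncard : ℝ) + Nat.card (A ⊓ B : Subgroup G) = Nat.card B := by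
    exact_mod_cast e2
  have e4R : (((A : Set G) \ B).ncard : ℝ) + ((B : Set G) \ A).ncard
      + ((((A : Set G) \ B) ∪ ((B : Set G) \ A))ᶜ.ncard : ℝ) = Nat.card G := by
    rw [e3] at e4
    exact_mod_cast e4
  have e5R : ((lcmSet G).ncard : ℝ) ≤ ((((A : Set G) \ B) ∪ ((B : Set G) \ A))ᶜ.ncard : ℝ) := by
    exact_mod_cast e5
  rw [div_le_iff₀ hGR]
  have hA' : (Nat.card A : ℝ) = Nat.card G / p := by field_simp; linarith
  have hB' : (Nat.card B : ℝ) = Nat.card G / p := by field_simp; linarith
  have hAB' : (Nat.card (A ⊓ B : Subgroup G) : ℝ) = Nat.card G / (p ^ 2) := by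
    field_simp; linarith
  have : (1 - 2 * ((p : ℝ) - 1) / (p : ℝ) ^ 2) * Nat.card G
      = Nat.card G - 2 * (Nat.card G / p) + 2 * (Nat.card G / (p : ℝ) ^ 2) := by
    field_simp; ring
  rw [this]
  linarith

/-- The wreath product `C_p wr C_p`. -/
@[ext] structure W (p : ℕ) where
  f : ZMod p → ZMod p
  t : ZMod p

namespace W

variable {p : ℕ}

instance : Mul (W p) := ⟨fun g h => ⟨fun i => g.f i + h.f (i + g.t), g.t + h.t⟩⟩
instance : One (W p) := ⟨⟨0, 0⟩⟩
instance : Inv (W p) := ⟨fun g => ⟨fun i => - g.f (i - g.t), - g.t⟩⟩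

@[simp] lemma mul_f (g h : W p) (i : ZMod p) : (g * h).f i = g.f i + h.f (i + g.t) := rfl
@[simp] lemma mul_t (g h : W p) : (g * h).t = g.t + h.t := rfl
@[simp] lemma one_f (i : ZMod p) : (1 : W p).f i = 0 := rfl
@[simp] lemma one_t : (1 : W p).t = 0 := rfl
@[simp] lemma inv_f (g : W p) (i : ZMod p) : (g⁻¹).f i = - g.f (i - g.t) := rfl
@[simp] lemma inv_t (g : W p) : (g⁻¹).t = - g.t := rfl

instance : Group (W p) := Group.ofLeftAxioms
  (by
    intro a b c
    ext i
    · simp [add_assoc]
    · simp [add_assoc])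
  (by
    intro a
    ext i
    · simp
    · simp)
  (by
    intro a
    ext i
    · simp [sub_eq_add_neg]
    · simp)

lemma pow_t (g : W p) (n : ℕ) : (g ^ n).t = n * g.t := by
  induction n with
  | zero => simp
  | succ n ih => rw [pow_succ, mul_t, ih]; push_cast; ring

lemma pow_f (g : W p) (n : ℕ) (i : ZMod p) :
    (g ^ n).f i = ∑ j ∈ Finset.range n, g.f (i + j * g.t) := by
  induction n with
  | zero => simp
  | succ n ih => rw [pow_succ, mul_f, ih, Finset.sum_range_succ, pow_t]

def equivProd (p : ℕ) : W p ≃ (ZMod p → ZMod p) × ZMod p where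
  toFun g := (g.f, g.t)
  invFun x := ⟨x.1, x.2⟩
  left_inv _ := rfl
  right_inv _ := rfl

variable [hp : Fact p.Prime]

instance : Finite (W p) := Finite.of_equiv _ (equivProd p).symm

lemma card_W : Nat.card (W p) = p ^ (p + 1) := by
  rw [Nat.card_congr (equivProd p), Nat.card_prod, Nat.card_fun, Nat.card_zmod]
  simp [pow_succ]

lemma isPGroup : IsPGroup p (W p) := IsPGroup.of_card card_W

/-- The sum of the coordinates of the base component. -/
def s (g : W p) : ZMod p := ∑ i, g.f i

lemma s_mul (g h : W p) : s (g * h) = s g + s h := by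
  unfold s
  simp only [mul_f, Finset.sum_add_distrib]
  congr 1
  exact Fintype.sum_equiv (Equiv.addRight g.t) _ _ (fun i => rfl)

lemma s_one : s (1 : W p) = 0 := by simp [s]

/-- The hom `t`. -/
def tHom : W p →* Multiplicative (ZMod p) where
  toFun g := Multiplicative.ofAdd g.t
  map_one' := rfl
  map_mul' _ _ := rfl

/-- The hom `s`. -/
def sHom : W p →* Multiplicative (ZMod p) where
  toFun g := Multiplicative.ofAdd (s g)
  map_one' := by rw [s_one]; rfl
  map_mul' g h := by rw [s_mul]; rfl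

/-- Base group. -/
def A (p : ℕ) [Fact p.Prime] : Subgroup (W p) := (tHom (p := p)).ker
/-- Kernel of the sum map. -/
def B (p : ℕ) [Fact p.Prime] : Subgroup (W p) := (sHom (p := p)).ker

lemma mem_A (g : W p) : g ∈ A p ↔ g.t = 0 := by
  unfold A
  rw [MonoidHom.mem_ker]
  exact Iff.rfl

lemma mem_B (g : W p) : g ∈ B p ↔ s g = 0 := by
  unfold B
  rw [MonoidHom.mem_ker]
  exact Iff.rfl

/-- Constant base elements. -/
def const (c : ZMod p) : W p := ⟨fun _ => c, 0⟩

lemma s_const (c : ZMod p) : s (const c : W p) = 0 := by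
  simp [s, const, ZMod.card]

lemma const_mul (c d : ZMod p) : (const c * const d : W p) = const (c + d) := by
  ext i <;> simp [const]

lemma const_pow (c : ZMod p) (n : ℕ) : ((const c) ^ n : W p) = const ((n : ZMod p) * c) := by
  induction n with
  | zero => simp [const]; rfl
  | succ n ih => rw [pow_succ, ih, const_mul]; push_cast; ring_nf

lemma pow_p (g : W p) : g ^ p = const (if g.t = 0 then 0 else s g) := by
  ext i
  · rw [pow_f]
    split_ifs with h
    · simp [h, const]
    · simp only [const]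
      unfold s
      -- reindex
      have h1 : ∑ j ∈ Finset.range p, g.f (i + j * g.t) = ∑ j : ZMod p, g.f (i + j * g.t) := by
        symm
        have := Fin.sum_univ_eq_sum_range (fun j : ℕ => g.f (i + (j : ZMod p) * g.t)) p
        rw [← this]
        obtain ⟨q, rfl⟩ : ∃ q, p = q + 1 := ⟨p - 1, by have := hp.out.pos; omega⟩
        refine Finset.sum_congr rfl (fun j _ => ?_)
        congr 2
        congr 1
        exact (ZMod.natCast_zmod_val (n := q + 1) j).symm
      rw [h1]
      let e : ZMod p ≃ ZMod p := (Equiv.mulRight₀ g.t h).trans (Equiv.addLeft i)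
      exact Fintype.sum_equiv e _ _ (fun j => rfl)
  · rw [pow_t]; simp [const]

lemma pow_p_eq_one_iff (g : W p) : g ^ p = 1 ↔ g ∈ A p ∨ g ∈ B p := by
  rw [pow_p, mem_A, mem_B]
  constructor
  · intro h
    by_cases ht : g.t = 0
    · exact Or.inl ht
    · right
      rw [if_neg ht] at h
      have := congrArg (fun g : W p => g.f 0) h
      simpa [const] using this
  · rintro (h | h)
    · rw [if_pos h]; rfl
    · rw [h]; simp; rfl

lemma index_A : (A p).index = p := by
  unfold A
  rw [Subgroup.index_ker]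
  have : Function.Surjective (tHom (p := p)) := fun x => ⟨⟨0, x.toAdd⟩, rfl⟩
  rw [MonoidHom.range_eq_top.2 this]
  simp

lemma index_B : (B p).index = p := by
  unfold B
  rw [Subgroup.index_ker]
  have : Function.Surjective (sHom (p := p)) := fun x => ⟨⟨Pi.single 0 x.toAdd, 0⟩, by
    change Multiplicative.ofAdd (∑ i, (Pi.single 0 x.toAdd : ZMod p → ZMod p) i) = x
    simp⟩
  rw [MonoidHom.range_eq_top.2 this]
  simp

/-- The sum-zero part of the base group consists of commutators. -/
lemma exists_telescope (f : ZMod p → ZMod p) (hf : ∑ i, f i = 0) :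
    ∃ u : ZMod p → ZMod p, ∀ i, u i - u (i + 1) = f i := by
  classical
  obtain ⟨q, rfl⟩ : ∃ q, p = q + 1 := ⟨p - 1, by have := hp.out.pos; omega⟩
  have hq : 0 < q := by have := hp.out.two_le; omega
  refine ⟨fun i => - ∑ j ∈ Finset.range (ZMod.val i), f (j : ZMod (q + 1)), fun i => ?_⟩
  have hi := ZMod.val_lt i
  beta_reduce
  by_cases h : i.val + 1 < q + 1
  · have h1 : (i + 1).val = i.val + 1 := by
      rw [ZMod.val_add_of_lt]
      · rw [ZMod.val_one_eq_one_mod, Nat.mod_eq_of_lt (by omega)]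
      · rw [ZMod.val_one_eq_one_mod, Nat.mod_eq_of_lt (by omega)]; omega
    rw [h1, Finset.sum_range_succ, ZMod.natCast_zmod_val]
    ring
  · have hiq : i.val = q := by omega
    have h1 : i + 1 = 0 := by
      have : ((i.val + 1 : ℕ) : ZMod (q + 1)) = 0 := by rw [hiq]; exact ZMod.natCast_self (q + 1)
      rw [← this]; push_cast; rw [ZMod.natCast_zmod_val]
    rw [h1, ZMod.val_zero, Finset.sum_range_zero, hiq]
    have h2 : ∑ j ∈ Finset.range (q + 1), f (j : ZMod (q + 1)) = 0 := by
      rw [← hf, ← Fin.sum_univ_eq_sum_range (fun j : ℕ => f (j : ZMod (q + 1))) (q + 1)]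
      refine Finset.sum_congr rfl (fun j _ => ?_)
      congr 1
      exact (ZMod.natCast_zmod_val (n := q + 1) j)
    rw [Finset.sum_range_succ] at h2
    have h3 : ((q : ℕ) : ZMod (q + 1)) = i := by
      have h4 := ZMod.natCast_zmod_val i
      rwa [hiq] at h4
    rw [h3] at h2
    linear_combination -h2


lemma index_inf : (A p ⊓ B p).index = p * p := by
  have hAn : (A p).Normal := by unfold A; infer_instance
  have hBn : (B p).Normal := by unfold B; infer_instance
  have hne : A p ⊔ B p ≠ A p := by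
    intro h
    have h1 : (⟨0, 1⟩ : W p) ∈ B p := by rw [mem_B]; simp [s]
    have h2 : (⟨0, 1⟩ : W p) ∈ A p := by rw [← h]; exact Subgroup.mem_sup_right h1
    rw [mem_A] at h2
    exact one_ne_zero h2
  have htop : A p ⊔ B p = ⊤ := by
    have h1 : (A p ⊔ B p).index ∣ (A p).index := Subgroup.index_dvd_of_le le_sup_left
    rw [index_A] at h1
    rcases (Nat.dvd_prime hp.out).1 h1 with h | h
    · exact Subgroup.index_eq_one.1 h
    · exfalso
      have h2 : (A p).relIndex (A p ⊔ B p) * (A p ⊔ B p).index = (A p).index :=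
        Subgroup.relIndex_mul_index le_sup_left
      rw [h, index_A] at h2
      have h3 : (A p).relIndex (A p ⊔ B p) = 1 := by
        have := hp.out.pos
        exact Nat.eq_of_mul_eq_mul_right this (by rw [h2, one_mul])
      rw [Subgroup.relIndex_eq_one] at h3
      exact hne (le_antisymm h3 le_sup_left)
  have h1 : (A p ⊓ B p).relIndex (A p) * (A p).index = (A p ⊓ B p).index :=
    Subgroup.relIndex_mul_index inf_le_left
  have h2 : (A p ⊓ B p).relIndex (A p) = (B p).relIndex (A p) := by
    rw [inf_comm]; exact Subgroup.inf_relIndex_right _ _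
  have h3 : (B p).relIndex (A p) = p := by
    rw [← Subgroup.relIndex_sup_right, htop, Subgroup.relIndex_top_right, index_B]
  rw [← h1, h2, h3, index_A]

lemma const_mem_A (c : ZMod p) : (const c : W p) ∈ A p := by rw [mem_A]; rfl
lemma const_mem_B (c : ZMod p) : (const c : W p) ∈ B p := by rw [mem_B]; exact s_const c

lemma pow_p_mem (g : W p) : g ^ p ∈ A p ⊓ B p := by
  rw [pow_p]
  exact ⟨const_mem_A _, const_mem_B _⟩

lemma pow_p_sq (g : W p) : g ^ (p ^ 2) = 1 := by
  rw [pow_two, pow_mul, pow_p_eq_one_iff]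
  exact Or.inl (pow_p_mem g).1

lemma s_pow (g : W p) (n : ℕ) : s (g ^ n) = n * s g := by
  induction n with
  | zero => simp [s_one]
  | succ n ih => rw [pow_succ, s_mul, ih]; push_cast; ring

/-- A subgroup containing an element of `A \ B` and an element of `B \ A` is everything. -/
lemma eq_top_of_mem {H : Subgroup (W p)} {a b : W p} (ha : a ∈ H) (haA : a ∈ A p)
    (haB : a ∉ B p) (hb : b ∈ H) (hbA : b ∉ A p) : H = ⊤ := by
  by_contra hH
  obtain ⟨M, hM, hle⟩ := (eq_top_or_exists_le_coatom H).resolve_left hH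
  have hnil : Group.IsNilpotent (W p) := isPGroup.isNilpotent
  have hMn : M.Normal := Subgroup.NormalizerCondition.normal_of_coatom M
    Group.normalizerCondition_of_isNilpotent hM
  have hnt : Nontrivial (W p ⧸ M) := by
    rw [← not_subsingleton_iff_nontrivial]
    intro hs
    exact hM.1 (QuotientGroup.subgroup_eq_top_of_subsingleton M hs)
  have hnilq : Group.IsNilpotent (W p ⧸ M) := inferInstance
  have hc : Subgroup.center (W p ⧸ M) ≠ ⊥ := Group.IsNilpotent.center_ne_bot _
  have hcomap : (Subgroup.center (W p ⧸ M)).comap (QuotientGroup.mk' M) = ⊤ := by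
    apply hM.2
    refine lt_of_le_of_ne ?_ ?_
    · intro m hm
      rw [Subgroup.mem_comap]
      have : QuotientGroup.mk' M m = 1 := (QuotientGroup.eq_one_iff (N := M) m).2 hm
      rw [this]
      exact one_mem _
    · intro heq
      apply hc
      rw [eq_bot_iff]
      intro z hz
      obtain ⟨w, rfl⟩ := QuotientGroup.mk'_surjective M z
      have : w ∈ M := by rw [heq]; exact hz
      rw [Subgroup.mem_bot]
      exact (QuotientGroup.eq_one_iff (N := M) w).2 this
  have hcomm : ∀ g h : W p, g * h * g⁻¹ * h⁻¹ ∈ M := by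
    intro g h
    have hg : g ∈ (Subgroup.center (W p ⧸ M)).comap (QuotientGroup.mk' M) := by
      rw [hcomap]; trivial
    rw [Subgroup.mem_comap, Subgroup.mem_center_iff] at hg
    have h1 := hg (QuotientGroup.mk' M h)
    rw [← QuotientGroup.eq_one_iff (N := M)]
    change QuotientGroup.mk' M (g * h * g⁻¹ * h⁻¹) = 1
    rw [map_mul, map_mul, map_mul, ← h1, map_inv, map_inv]
    group
  have haM : a ∈ M := hle ha
  have hbM : b ∈ M := hle hb
  rw [mem_A] at haA hbA
  rw [mem_B] at haB
  -- the intersection of `A` and `B` lies in `M`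
  have hAB : ∀ g : W p, g ∈ A p → g ∈ B p → g ∈ M := by
    intro g hgA hgB
    rw [mem_A] at hgA
    rw [mem_B] at hgB
    obtain ⟨u, hu⟩ := exists_telescope g.f hgB
    have := hcomm ⟨u, 0⟩ ⟨0, 1⟩
    convert this using 1
    ext i
    · simp [← hu, sub_eq_add_neg]
    · simp [hgA]
  apply hM.1
  rw [eq_top_iff]
  intro w _
  -- kill the `t`-component
  have h1 : (b ^ (w.t * b.t⁻¹).val).t = w.t := by
    rw [pow_t, ZMod.natCast_zmod_val, mul_assoc, inv_mul_cancel₀ hbA, mul_one]
  have h2 : (w * (b ^ (w.t * b.t⁻¹).val)⁻¹) ∈ A p := by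
    rw [mem_A, mul_t, inv_t, h1, add_neg_cancel]
  set g := w * (b ^ (w.t * b.t⁻¹).val)⁻¹ with hg
  have h3 : s (a ^ (s g * (s a)⁻¹).val) = s g := by
    rw [s_pow, ZMod.natCast_zmod_val, mul_assoc, inv_mul_cancel₀ haB, mul_one]
  have h4 : g * (a ^ (s g * (s a)⁻¹).val)⁻¹ ∈ M := by
    apply hAB
    · apply mul_mem h2
      apply inv_mem
      apply pow_mem
      rw [mem_A]; exact haA
    · rw [mem_B, s_mul, show s (a ^ (s g * (s a)⁻¹).val)⁻¹ = - s g by
        have := s_mul (a ^ (s g * (s a)⁻¹).val) (a ^ (s g * (s a)⁻¹).val)⁻¹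
        rw [mul_inv_cancel, s_one, h3] at this
        linear_combination -this]
      ring
  have h5 : g ∈ M := by
    have := mul_mem h4 (pow_mem haM (s g * (s a)⁻¹).val)
    rwa [inv_mul_cancel_right] at this
  have h6 := mul_mem h5 (pow_mem hbM (w.t * b.t⁻¹).val)
  rwa [hg, inv_mul_cancel_right] at h6

/-- A nontrivial normal subgroup contains `const 1`. -/
lemma const_one_mem {N : Subgroup (W p)} (hN : N.Normal) (hne : N ≠ ⊥) : (const 1 : W p) ∈ N := by
  have hdvd : p ∣ Nat.card N := by
    obtain ⟨n, hn⟩ := IsPGroup.iff_card.1 ((isPGroup (p := p)).to_subgroup N)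
    have h1 : 1 < Nat.card N := (Subgroup.one_lt_card_iff_ne_bot N).2 hne
    rw [hn] at h1 ⊢
    have : n ≠ 0 := by
      rintro rfl
      simp at h1
    exact dvd_pow_self p this
  have hfix : (1 : N) ∈ MulAction.fixedPoints (ConjAct (W p)) N := by
    intro g
    simp
  obtain ⟨z, hz, hz1⟩ := (IsPGroup.of_equiv (isPGroup (p := p)) ConjAct.toConjAct).exists_fixed_point_of_prime_dvd_card_of_fixed_point N hdvd hfix
  have hcen : ∀ g : W p, g * z.1 = z.1 * g := by
    intro g
    have h1 := congrArg Subtype.val (hz (ConjAct.toConjAct g))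
    rw [ConjAct.Subgroup.val_conj_smul, ConjAct.smul_def] at h1
    simp only [ConjAct.ofConjAct_toConjAct] at h1
    rw [mul_inv_eq_iff_eq_mul] at h1
    exact h1
  have hzt : z.1.t = 0 := by
    by_contra hne0
    have h1 := congrArg (fun g : W p => g.f 0) (hcen ⟨Pi.single 0 1, 0⟩)
    simp only [mul_f, add_zero, zero_add, Pi.single_eq_same] at h1
    rw [Pi.single_eq_of_ne hne0] at h1
    have : (1 : ZMod p) = 0 := by linear_combination h1
    exact one_ne_zero this
  have hzf : ∀ i, z.1.f (i + 1) = z.1.f i := by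
    intro i
    have h1 := congrArg (fun g : W p => g.f i) (hcen ⟨0, 1⟩)
    simpa using h1
  have hzc : ∀ n : ℕ, z.1.f (n : ZMod p) = z.1.f 0 := by
    intro n
    induction n with
    | zero => simp
    | succ n ih => push_cast; rw [hzf, ih]
  have hzconst : z.1 = const (z.1.f 0) := by
    ext i
    · rw [← ZMod.natCast_zmod_val i, hzc]; rfl
    · rw [hzt]; rfl
  have hc0 : z.1.f 0 ≠ 0 := by
    intro h0
    apply hz1
    apply Subtype.ext
    rw [hzconst, h0]
    rfl
  have h1 := pow_mem z.2 ((z.1.f 0)⁻¹).val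
  rw [hzconst, const_pow, ZMod.natCast_zmod_val] at h1
  have h2 : (z.1.f 0)⁻¹ * (const (z.1.f 0) : W p).f 0 = 1 := inv_mul_cancel₀ hc0
  rw [← hzconst] at h2
  have h3 : ((const (z.1.f 0) : W p).f 0)⁻¹ * z.1.f 0 = 1 := inv_mul_cancel₀ hc0
  rwa [h3] at h1

end W

lemma mem_lcmSet_of {p : ℕ} [hp : Fact p.Prime] {T : Type u} [Group T]
    (hexp : ∀ x : T, x ^ (p ^ 2) = 1) {g : T}
    (h : ∀ n : ℕ, (g ^ n) ^ p = 1 → ∀ y : T, y ^ p = 1 → (g ^ n * y) ^ p = 1) :
    g ∈ lcmSet T := by
  intro n hn y
  have hall : ∀ x : T, orderOf x ∣ p ^ 2 := fun x => orderOf_dvd_of_pow_eq_one (hexp x)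
  by_cases h1 : (g ^ n) ^ p = 1
  · by_cases h2 : y ^ p = 1
    · by_cases h3 : g ^ n = 1
      · rw [h3, one_mul]; exact Nat.dvd_lcm_right _ _
      · have h4 : orderOf (g ^ n) = p := orderOf_eq_prime h1 h3
        have h5 : orderOf (g ^ n * y) ∣ p := orderOf_dvd_of_pow_eq_one (h n h1 y h2)
        rw [h4]
        exact h5.trans (Nat.dvd_lcm_left _ _)
    · have h4 : orderOf y = p ^ 2 := orderOf_eq_prime_pow (by simpa using h2) (hexp y)
      rw [h4]
      exact (hall _).trans (Nat.dvd_lcm_right _ _)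
  · have h4 : orderOf (g ^ n) = p ^ 2 := orderOf_eq_prime_pow (by simpa using h1) (hexp _)
    rw [h4]
    exact (hall _).trans (Nat.dvd_lcm_left _ _)

lemma isLCMGroup_of {p : ℕ} [hp : Fact p.Prime] {T : Type u} [Group T]
    (hexp : ∀ x : T, x ^ (p ^ 2) = 1)
    (h : ∀ x y : T, x ^ p = 1 → y ^ p = 1 → (x * y) ^ p = 1) : IsLCMGroup T := by
  unfold IsLCMGroup
  ext g
  simp only [Set.mem_univ, iff_true]
  exact mem_lcmSet_of hexp (fun n h1 y h2 => h _ _ h1 h2)

lemma cst_lt_one {p : ℕ} (hp : p.Prime) : cst p < 1 := by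
  unfold cst
  have h2 : (2 : ℝ) ≤ p := by exact_mod_cast hp.two_le
  have : 0 < 2 * ((p : ℝ) - 1) / (p : ℝ) ^ 2 := by
    apply div_pos
    · linarith
    · positivity
  linarith

lemma cst_pos {p : ℕ} (hp : p.Prime) : 0 < cst p := by
  unfold cst
  have h2 : (2 : ℝ) ≤ p := by exact_mod_cast hp.two_le
  have : 2 * ((p : ℝ) - 1) / (p : ℝ) ^ 2 < 1 := by
    rw [div_lt_one (by positivity)]
    nlinarith
  linarith

lemma lcmRatio_eq_one {T : Type u} [Group T] [Finite T] (h : IsLCMGroup T) : lcmRatio T = 1 := by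
  unfold lcmRatio
  rw [h, Nat.card_coe_set_eq, Set.ncard_univ, div_self]
  have : 0 < Nat.card T := Nat.card_pos
  positivity

/-- The wreath product itself has ratio at least `cst p`. -/
lemma W.ratio_ge {p : ℕ} [hp : Fact p.Prime] : cst p ≤ lcmRatio (W p) := by
  classical
  have hsub : (((W.A p : Set (W p)) \ W.B p) ∪ ((W.B p : Set (W p)) \ W.A p))ᶜ ⊆ lcmSet (W p) := by
    intro g hg
    have hg' : g ∈ W.A p ↔ g ∈ W.B p := by
      by_contra hcon
      apply hg
      by_cases h1 : g ∈ W.A p
      · by_cases h2 : g ∈ W.B p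
        · exact absurd ⟨fun _ => h2, fun _ => h1⟩ hcon
        · exact Or.inl ⟨h1, h2⟩
      · by_cases h2 : g ∈ W.B p
        · exact Or.inr ⟨h2, h1⟩
        · exact absurd ⟨fun h => absurd h h1, fun h => absurd h h2⟩ hcon
    -- a power of `g` killed by `p` lies in the intersection
    have key : ∀ n : ℕ, (g ^ n) ^ p = 1 → g ^ n ∈ W.A p ⊓ W.B p := by
      intro n hn
      by_cases h1 : g ∈ W.A p
      · exact ⟨pow_mem h1 n, pow_mem (hg'.1 h1) n⟩
      · have h2 : g ∉ W.B p := fun h => h1 (hg'.2 h)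
        have hdvd : p ∣ n := by
          rw [W.pow_p_eq_one_iff] at hn
          rcases hn with h | h
          · rw [W.mem_A, W.pow_t] at h
            rw [W.mem_A] at h1
            rcases mul_eq_zero.1 h with h | h
            · exact (ZMod.natCast_eq_zero_iff n p).1 h
            · exact absurd h h1
          · rw [W.mem_B, W.s_pow] at h
            rw [W.mem_B] at h2
            rcases mul_eq_zero.1 h with h | h
            · exact (ZMod.natCast_eq_zero_iff n p).1 h
            · exact absurd h h2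
        obtain ⟨m, rfl⟩ := hdvd
        rw [pow_mul]
        exact pow_mem (W.pow_p_mem g) m
    refine mem_lcmSet_of (p := p) W.pow_p_sq ?_
    intro n hn y hy
    have h1 := key n hn
    rw [W.pow_p_eq_one_iff] at hy ⊢
    rcases hy with hy | hy
    · exact Or.inl (mul_mem h1.1 hy)
    · exact Or.inr (mul_mem h1.2 hy)
  have hppos : 0 < p := hp.out.pos
  have hcA : p * Nat.card (W.A p) = Nat.card (W p) := by
    have := Subgroup.index_mul_card (W.A p); rwa [W.index_A] at this
  have hcB : p * Nat.card (W.B p) = Nat.card (W p) := by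
    have := Subgroup.index_mul_card (W.B p); rwa [W.index_B] at this
  have hcAB : p * p * Nat.card (W.A p ⊓ W.B p : Subgroup (W p)) = Nat.card (W p) := by
    have := Subgroup.index_mul_card (W.A p ⊓ W.B p); rwa [W.index_inf] at this
  have e1 : ((W.A p : Set (W p)) \ W.B p).ncard + Nat.card (W.A p ⊓ W.B p : Subgroup (W p))
      = Nat.card (W.A p) := by
    have := Set.ncard_inter_add_ncard_sdiff_eq_ncard (W.A p : Set (W p)) (W.B p : Set (W p))
    rw [add_comm] at this
    exact this
  have e2 : ((W.B p : Set (W p)) \ W.A p).ncard + Nat.card (W.A p ⊓ W.B p : Subgroup (W p))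
      = Nat.card (W.B p) := by
    have := Set.ncard_inter_add_ncard_sdiff_eq_ncard (W.B p : Set (W p)) (W.A p : Set (W p))
    rw [add_comm, Set.inter_comm] at this
    exact this
  have e3 : (((W.A p : Set (W p)) \ W.B p) ∪ ((W.B p : Set (W p)) \ W.A p)).ncard
      = ((W.A p : Set (W p)) \ W.B p).ncard + ((W.B p : Set (W p)) \ W.A p).ncard := by
    refine Set.ncard_union_eq ?_ (Set.toFinite _) (Set.toFinite _)
    rw [Set.disjoint_left]
    rintro g ⟨h1, h2⟩ ⟨h3, h4⟩
    exact h2 h3
  have e4 : (((W.A p : Set (W p)) \ W.B p) ∪ ((W.B p : Set (W p)) \ W.A p)).ncard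
      + (((W.A p : Set (W p)) \ W.B p) ∪ ((W.B p : Set (W p)) \ W.A p))ᶜ.ncard
      = Nat.card (W p) := Set.ncard_add_ncard_compl _
  have e5 : (((W.A p : Set (W p)) \ W.B p) ∪ ((W.B p : Set (W p)) \ W.A p))ᶜ.ncard
      ≤ (lcmSet (W p)).ncard := Set.ncard_le_ncard hsub
  have e6 : Nat.card (lcmSet (W p)) = (lcmSet (W p)).ncard := Nat.card_coe_set_eq _
  have hGpos : 0 < Nat.card (W p) := Nat.card_pos
  unfold lcmRatio cst
  rw [e6]
  generalize (lcmSet (W p)).ncard = L at *
  generalize (((W.A p : Set (W p)) \ W.B p) ∪ ((W.B p : Set (W p)) \ W.A p))ᶜ.ncard = X at *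
  generalize (((W.A p : Set (W p)) \ W.B p) ∪ ((W.B p : Set (W p)) \ W.A p)).ncard = Y at *
  generalize ((W.A p : Set (W p)) \ W.B p).ncard = Y1 at *
  generalize ((W.B p : Set (W p)) \ W.A p).ncard = Y2 at *
  generalize Nat.card (W.A p ⊓ W.B p : Subgroup (W p)) = cAB at *
  generalize Nat.card (W.A p) = cA at *
  generalize Nat.card (W.B p) = cB at *
  generalize Nat.card (W p) = cG at *
  have hpR : (0 : ℝ) < p := by exact_mod_cast hppos
  have hGR : (0 : ℝ) < cG := by exact_mod_cast hGpos
  have hcAR : (p : ℝ) * cA = cG := by exact_mod_cast hcA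
  have hcBR : (p : ℝ) * cB = cG := by exact_mod_cast hcB
  have hcABR : (p : ℝ) * p * cAB = cG := by exact_mod_cast hcAB
  have e1R : (Y1 : ℝ) + cAB = cA := by exact_mod_cast e1
  have e2R : (Y2 : ℝ) + cAB = cB := by exact_mod_cast e2
  have e4R : (Y1 : ℝ) + Y2 + X = cG := by
    rw [e3] at e4
    exact_mod_cast e4
  have e5R : (X : ℝ) ≤ L := by exact_mod_cast e5
  rw [le_div_iff₀ hGR]
  have hA' : (cA : ℝ) = cG / p := by field_simp; linarith
  have hB' : (cB : ℝ) = cG / p := by field_simp; linarith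
  have hAB' : (cAB : ℝ) = cG / (p ^ 2) := by
    field_simp; linarith
  have : (1 - 2 * ((p : ℝ) - 1) / (p : ℝ) ^ 2) * cG
      = cG - 2 * (cG / p) + 2 * (cG / (p : ℝ) ^ 2) := by
    field_simp; ring
  rw [this]
  linarith

/-- Every section of the wreath product has ratio at least `cst p`. -/
lemma W.section_ratio_ge {p : ℕ} [hp : Fact p.Prime] (H : Subgroup (W p)) (K : Subgroup H)
    (hK : K.Normal) : cst p ≤ lcmRatio (H ⧸ K) := by
  classical
  have hquot : ∀ x : H ⧸ K, x ^ (p ^ 2) = 1 := by
    intro x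
    obtain ⟨h, rfl⟩ := QuotientGroup.mk_surjective x
    rw [← QuotientGroup.mk_pow]
    have : h ^ (p ^ 2) = 1 := by
      apply Subtype.ext
      simpa using W.pow_p_sq (h : W p)
    rw [this]; rfl
  by_cases hz : ∃ k ∈ K, ((k : H) : W p) = W.const 1
  · -- exponent `p`
    obtain ⟨k, hkK, hk⟩ := hz
    have hexp : ∀ x : H ⧸ K, x ^ p = 1 := by
      intro x
      obtain ⟨h, rfl⟩ := QuotientGroup.mk_surjective x
      rw [← QuotientGroup.mk_pow, QuotientGroup.eq_one_iff]
      have h1 : h ^ p = k ^ (if (h : W p).t = 0 then 0 else W.s (h : W p)).val := by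
        apply Subtype.ext
        rw [Subgroup.coe_pow, Subgroup.coe_pow, hk, W.const_pow, W.pow_p, ZMod.natCast_zmod_val,
          mul_one]
      rw [h1]
      exact pow_mem hkK _
    have : IsLCMGroup (H ⧸ K) := isLCMGroup_of (p := p) hquot (fun x y _ _ => hexp _)
    rw [lcmRatio_eq_one this]
    exact (cst_lt_one hp.out).le
  · -- no nontrivial constants in `K`
    have hKpow : ∀ h : H, h ^ p ∈ K ↔ (h : W p) ∈ W.A p ∨ (h : W p) ∈ W.B p := by
      intro h
      rw [← W.pow_p_eq_one_iff]
      constructor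
      · intro hm
        by_contra hne
        apply hz
        rw [W.pow_p] at hne
        set c := (if (h : W p).t = 0 then 0 else W.s (h : W p)) with hc
        have hc0 : c ≠ 0 := by
          intro h0
          apply hne
          rw [h0]; rfl
        refine ⟨(h ^ p) ^ (c⁻¹).val, pow_mem hm _, ?_⟩
        rw [Subgroup.coe_pow, Subgroup.coe_pow, W.pow_p, ← hc, W.const_pow, ZMod.natCast_zmod_val,
          inv_mul_cancel₀ hc0]
      · intro h1
        have : h ^ p = 1 := by
          apply Subtype.ext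
          simpa using h1
        rw [this]
        exact one_mem _
    have hiff : ∀ h : H, (h : H ⧸ K) ^ p = 1 ↔ (h : W p) ∈ W.A p ∨ (h : W p) ∈ W.B p := by
      intro h
      rw [← QuotientGroup.mk_pow, QuotientGroup.eq_one_iff, hKpow]
    by_cases hcA : ∀ h : H, (h : W p) ∈ W.A p → (h : W p) ∈ W.B p
    · have hiff' : ∀ h : H, (h : H ⧸ K) ^ p = 1 ↔ (h : W p) ∈ W.B p := by
        intro h
        rw [hiff]
        exact ⟨fun h1 => h1.elim (hcA h) id, Or.inr⟩
      have : IsLCMGroup (H ⧸ K) := by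
        refine isLCMGroup_of (p := p) hquot ?_
        intro x y hx hy
        obtain ⟨h, rfl⟩ := QuotientGroup.mk_surjective x
        obtain ⟨h', rfl⟩ := QuotientGroup.mk_surjective y
        rw [hiff'] at hx hy
        rw [← QuotientGroup.mk_mul, hiff']
        exact mul_mem hx hy
      rw [lcmRatio_eq_one this]
      exact (cst_lt_one hp.out).le
    · by_cases hcB : ∀ h : H, (h : W p) ∈ W.B p → (h : W p) ∈ W.A p
      · have hiff' : ∀ h : H, (h : H ⧸ K) ^ p = 1 ↔ (h : W p) ∈ W.A p := by
          intro h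
          rw [hiff]
          exact ⟨fun h1 => h1.elim id (hcB h), Or.inl⟩
        have : IsLCMGroup (H ⧸ K) := by
          refine isLCMGroup_of (p := p) hquot ?_
          intro x y hx hy
          obtain ⟨h, rfl⟩ := QuotientGroup.mk_surjective x
          obtain ⟨h', rfl⟩ := QuotientGroup.mk_surjective y
          rw [hiff'] at hx hy
          rw [← QuotientGroup.mk_mul, hiff']
          exact mul_mem hx hy
        rw [lcmRatio_eq_one this]
        exact (cst_lt_one hp.out).le
      · push Not at hcA hcB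
        obtain ⟨a, haA, haB⟩ := hcA
        obtain ⟨b, hbB, hbA⟩ := hcB
        have hH : H = ⊤ := W.eq_top_of_mem a.2 haA haB b.2 hbA
        subst hH
        have hKbot : K = ⊥ := by
          by_contra hne
          apply hz
          have hN : (K.map (⊤ : Subgroup (W p)).subtype).Normal := by
            have := Subgroup.Normal.map hK (⊤ : Subgroup (W p)).subtype (fun x => ⟨⟨x, trivial⟩, rfl⟩)
            exact this
          have hne' : K.map (⊤ : Subgroup (W p)).subtype ≠ ⊥ := by
            intro h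
            apply hne
            exact (Subgroup.map_eq_bot_iff_of_injective K (Subgroup.subtype_injective _)).1 h
          obtain ⟨k, hk, hk1⟩ := W.const_one_mem hN hne'
          exact ⟨k, hk, hk1⟩
        subst hKbot
        have e : ((⊤ : Subgroup (W p)) ⧸ (⊥ : Subgroup (⊤ : Subgroup (W p)))) ≃* W p :=
          (QuotientGroup.quotientBot).trans Subgroup.topEquiv
        rw [lcmRatio_congr e]
        exact W.ratio_ge

lemma W.not_isLCM {p : ℕ} [hp : Fact p.Prime] : ¬ IsLCMGroup (W p) := by
  intro h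
  have h1 : (⟨Pi.single 0 1, 0⟩ : W p) ^ p = 1 := by
    rw [W.pow_p_eq_one_iff, W.mem_A]; exact Or.inl rfl
  have h2 : (⟨0, 1⟩ : W p) ^ p = 1 := by
    rw [W.pow_p_eq_one_iff, W.mem_B]; right; simp [W.s]
  have h3 := h.mul_pow h1 h2
  rw [W.pow_p_eq_one_iff, W.mem_A, W.mem_B] at h3
  rcases h3 with h3 | h3
  · simp at h3
  · rw [W.s_mul] at h3
    simp [W.s] at h3

/-- Every finite non-LCM `p`-group has a section of ratio at most `cst p`. -/
lemma exists_section {p : ℕ} [hp : Fact p.Prime] (n : ℕ) : ∀ (G : Type u) [Group G] [Finite G],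
    Nat.card G = n → IsPGroup p G → ¬ IsLCMGroup G →
    ∃ (S : Type u) (_ : Group S), IsSection S G ∧ lcmRatio S ≤ cst p := by
  induction n using Nat.strong_induction_on with
  | _ n ih =>
    intro G _ _ hn hG hL
    by_cases h1 : ∃ H : Subgroup G, H ≠ ⊤ ∧ ¬ IsLCMGroup H
    · obtain ⟨H, hH, hHL⟩ := h1
      have hlt : Nat.card H < n := by
        rw [← hn]
        have h2 := Subgroup.index_mul_card H
        have h3 : 1 < H.index := by
          have h4 : H.index ≠ 1 := fun h => hH (Subgroup.index_eq_one.1 h)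
          have h5 : H.index ≠ 0 := Subgroup.index_ne_zero_of_finite
          omega
        have h6 : 0 < Nat.card H := Nat.card_pos
        nlinarith
      obtain ⟨S, hS, hS1, hS2⟩ := ih _ hlt H rfl (hG.to_subgroup H) hHL
      refine ⟨S, hS, hS1.trans ⟨H, MonoidHom.id H, Function.surjective_id⟩, hS2⟩
    · by_cases h2 : ∃ N : Subgroup G, ∃ _ : N.Normal, N ≠ ⊥ ∧ ¬ IsLCMGroup (G ⧸ N)
      · obtain ⟨N, hN, hNb, hNL⟩ := h2
        have hlt : Nat.card (G ⧸ N) < n := by
          rw [← hn]
          have h2 := Subgroup.index_mul_card N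
          have h3 : 1 < Nat.card N := (Subgroup.one_lt_card_iff_ne_bot N).2 hNb
          have h5 : N.index ≠ 0 := Subgroup.index_ne_zero_of_finite
          have h6 : 0 < N.index := Nat.pos_of_ne_zero h5
          have h7 : Nat.card (G ⧸ N) = N.index := rfl
          rw [h7]
          nlinarith
        obtain ⟨S, hS, hS1, hS2⟩ := ih _ hlt (G ⧸ N) rfl (hG.to_quotient N) hNL
        refine ⟨S, hS, hS1.trans ⟨⊤, (QuotientGroup.mk' N).comp (⊤ : Subgroup G).subtype, ?_⟩, hS2⟩
        intro x
        obtain ⟨g, rfl⟩ := QuotientGroup.mk'_surjective N x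
        exact ⟨⟨g, trivial⟩, rfl⟩
      · push Not at h1 h2
        exact ⟨G, inferInstance, isSection_refl G, minimal_bound G hG hL h1
          (fun N hN hNb => h2 N hN hNb)⟩

/-- **Main theorem.** For every prime `p` put `c = 1 - 2(p-1)/p^2`, a number in `(0,1)`.
Every finite `p`-group `G` with `lcm*(G) > c` is an LCM-group, and the constant is optimal:
there is a finite `p`-group which is not an LCM-group and has `lcm*(G) = c`. -/
theorem result (p : ℕ) (hp : p.Prime) :
    0 < 1 - 2 * ((p : ℝ) - 1) / (p : ℝ) ^ 2 ∧ 1 - 2 * ((p : ℝ) - 1) / (p : ℝ) ^ 2 < 1 ∧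
    (∀ (G : Type u) [Group G] [Finite G], IsPGroup p G →
      1 - 2 * ((p : ℝ) - 1) / (p : ℝ) ^ 2 < lcmStar G → IsLCMGroup G) ∧
    (∃ (G : Type) (_ : Group G) (_ : Finite G), IsPGroup p G ∧ ¬ IsLCMGroup G ∧
      lcmStar G = 1 - 2 * ((p : ℝ) - 1) / (p : ℝ) ^ 2) := by
  have : Fact p.Prime := ⟨hp⟩
  refine ⟨cst_pos hp, cst_lt_one hp, ?_, ?_⟩
  · intro G _ _ hG hc
    by_contra hL
    obtain ⟨S, hS, hS1, hS2⟩ := exists_section _ G rfl hG hL
    have h1 := hS1.lcmStar_le
    have h2 : lcmStar G ≤ cst p := h1.trans hS2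
    exact absurd hc (not_lt.2 h2)
  · refine ⟨W p, inferInstance, inferInstance, W.isPGroup, W.not_isLCM, ?_⟩
    apply le_antisymm
    · obtain ⟨S, hS, hS1, hS2⟩ := exists_section _ (W p) rfl (W.isPGroup (p := p)) W.not_isLCM
      exact hS1.lcmStar_le.trans hS2
    · apply le_csInf (ratioSet_nonempty (W p))
      rintro r ⟨H, K, hK, rfl⟩
      exact W.section_ratio_ge H K hK

end Pool.Agent.Results.MP_391eb1_al.SharpConstant
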